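import Pool.Agent.Run7.h756.GD5
import Pool.Agent.TH823.Fam.Fam2

/-!
# Products of the densities of the primes at generic translates of arbitrary sequences

Let `u 1, ..., u k` be arbitrary sequences of `M ≥ N / log ^ C N` distinct integers in `[1, N]`.  For almost all
translations `t` the product of the densities of the primes in the `k` intervals
`(u j i + t j, u j i + t j + H j]` has mean value `1 + O(ε)` over `i ≤ M`, simultaneously for all real lengths
`H j` between a power of `log N` and `N`.  The translations may be restricted to thin families, for instance to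
polynomial values.

The Vinogradov bound and Selberg's upper bound function over short intervals are from the starting files
(`Pool.Agent.W301.SS`, `Pool.Agent.TH646.TT`), as are the bilinear inequality for families of nearly minimal
additive energy (`Pool.Agent.TH646.LV`) and the moments of Weyl sums (`Pool.Agent.TH823.Fam`).
-/

set_option autoImplicit false

namespace Pool.Agent.Results.MP_31d0eb_nt.GenericTranslates

open Finset

/-- `π(n, H) log n / H`, where `π(n, H)` is the number of the primes in `(n, n + H]` -/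
noncomputable def density (n : ℕ) (H : ℝ) : ℝ :=
  (((Ioc n ⌊(n : ℝ) + H⌋₊).filter Nat.Prime).card : ℝ) * Real.log n / H

/-- The additive energy of order `p` of the family `s 1, ..., s x`: the number of the solutions of
`s (v 1) + ... + s (v p) = s (w 1) + ... + s (w p)` with all `v i`, `w i` in `{1, ..., x}`. -/
def energy (p x : ℕ) (s : ℕ → ℤ) : ℕ :=
  (((Fintype.piFinset fun _ : Fin p => Icc 1 x) ×ˢ (Fintype.piFinset fun _ : Fin p => Icc 1 x)).filter
    (fun q => ∑ i, s (q.1 i) = ∑ i, s (q.2 i))).card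

/-- The members of the family `s 1, ..., s x` are at most `B N` in absolute value, and its additive energy of
order `p` is at most `log ^ C N` times the minimal possible size `x ^ (2 p) / N`. -/
def NearlyMinimal (p B C N x : ℕ) (s : ℕ → ℤ) : Prop :=
  (∀ m ∈ Icc 1 x, |s m| ≤ B * N) ∧ (energy p x s : ℝ) * N ≤ Real.log N ^ C * (x : ℝ) ^ (2 * p)

/-- `u` takes distinct values in `[1, N]` at `1, ..., M` -/
def Distinct (N M : ℕ) (u : ℕ → ℕ) : Prop :=
  Set.InjOn u (Set.Icc 1 M) ∧ ∀ i ∈ Icc 1 M, u i ∈ Icc 1 N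

/-- The translations `t` are good for the sequences `u`: for all real lengths `H j` with
`(log N) ^ K ≤ H j ≤ N` the mean value over `i ≤ M` of the product over `j` of the densities of the primes in
`(u j i + t j, u j i + t j + H j]` differs from `1` by at most `ε`, and at least `(4 ^ (-k) - ε) M` of the
`i ≤ M` are such that all these `k` densities are at least `ε`. -/
def Good {k : ℕ} (ε : ℝ) (K N M : ℕ) (u : Fin k → ℕ → ℕ) (t : Fin k → ℕ) : Prop :=
  ∀ H : Fin k → ℝ, (∀ j, Real.log N ^ K ≤ H j ∧ H j ≤ N) →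
    |(∑ i ∈ Icc 1 M, ∏ j, density (u j i + t j) (H j)) / M - 1| ≤ ε ∧
    ((1 / 4) ^ k - ε) * M ≤ (Set.ncard {i | i ∈ Icc 1 M ∧ ∀ j, ε ≤ density (u j i + t j) (H j)} : ℝ)

/-- the number of the tuples `m` with `1 ≤ m j ≤ x j` for all `j` and with the property `E` -/
noncomputable def num {k : ℕ} (x : Fin k → ℕ) (E : (Fin k → ℕ) → Prop) : ℝ :=
  (Set.ncard {m | (∀ j, m j ∈ Icc 1 (x j)) ∧ E m} : ℝ)

lemma density_eq (n : ℕ) (H : ℝ) (hH : 0 ≤ H) : density n H = Run7.h756.GD.dens n H := by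
  unfold density Run7.h756.GD.dens Pool.Agent.W301.SS.pn
  rw [add_comm (n : ℝ) H, Nat.floor_add_natCast hH, add_comm ⌊H⌋₊ n]

lemma num_le {k : ℕ} {x : Fin k → ℕ} {E : (Fin k → ℕ) → Prop} {V : ℝ}
    (h : ∀ S : Finset (Fin k → ℕ), (∀ m ∈ S, (∀ j, m j ∈ Icc 1 (x j)) ∧ E m) → (S.card : ℝ) ≤ V) :
    num x E ≤ V := by
  classical
  unfold num
  have hfin : {m : Fin k → ℕ | (∀ j, m j ∈ Icc 1 (x j)) ∧ E m}.Finite := by
    apply (Fintype.piFinset fun j => Icc 1 (x j)).finite_toSet.subset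
    intro m hm
    rw [mem_coe, Fintype.mem_piFinset]
    exact hm.1
  rw [Set.ncard_eq_toFinset_card _ hfin]
  apply h
  intro m hm
  rw [Set.Finite.mem_toFinset] at hm
  exact hm

lemma good_of {k : ℕ} {ε : ℝ} {K N M : ℕ} {u : Fin k → ℕ → ℕ} {t : Fin k → ℕ} (hM : 0 < M)
    (h : Run7.h756.GD.GoodT k N K M ε u t) : Good ε K N M u t := by
  intro H hH
  obtain ⟨h1, h2⟩ := h H hH
  have hM0 : (0 : ℝ) < M := by exact_mod_cast hM
  have hH0 : ∀ j, 0 ≤ H j := by
    intro j
    refine le_trans ?_ (hH j).1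
    have : 0 ≤ Real.log (N : ℝ) := Real.log_natCast_nonneg N
    positivity
  have e : ∀ i j, density (u j i + t j) (H j) = Run7.h756.GD.dens (u j i + t j) (H j) :=
    fun i j => density_eq _ _ (hH0 j)
  simp only [e]
  refine ⟨?_, h2⟩
  rw [abs_le] at h1 ⊢
  constructor
  · rw [le_sub_iff_add_le, le_div_iff₀ hM0]
    linarith
  · rw [sub_le_iff_le_add, div_le_iff₀ hM0]
    linarith

lemma general (k B C U : ℕ) (ε : ℝ) (hε : 0 < ε) (p : Fin k → ℕ) : ∃ K : ℕ, ∀ N : ℕ, K ≤ N →
      ∀ (x : Fin k → ℕ) (s : Fin k → ℕ → ℤ), (∀ j, NearlyMinimal (p j) B C N (x j) (s j)) →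
      ∀ (M : ℕ) (u : Fin k → ℕ → ℕ), N / Real.log N ^ C ≤ M → (∀ j, Distinct N M (u j)) →
      num x (fun m => (∀ j, s j (m j) ∈ Icc (1 : ℤ) N) ∧ ¬ Good ε K N M u (fun j => (s j (m j)).toNat)) ≤
        (∏ j, x j) / Real.log N ^ U := by
  obtain ⟨K, hK⟩ := Run7.h756.GD.main B C k p U ε hε
  refine ⟨K + 3, fun N hN x s hs M u hM hu => num_le fun S hS => ?_⟩
  have hN3 : 3 ≤ N := by omega
  have hN0 : (0 : ℝ) < N := by exact_mod_cast (by omega : 0 < N)
  have hℓ1 : 1 ≤ Real.log (N : ℝ) := by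
    rw [Real.le_log_iff_exp_le hN0]
    have h7 := Real.exp_one_lt_d9
    have : (3 : ℝ) ≤ N := by exact_mod_cast hN3
    linarith
  have hM0 : 0 < M := by
    have : (0 : ℝ) < M := lt_of_lt_of_le (by positivity) hM
    exact_mod_cast this
  rw [div_le_iff₀ (by positivity)] at hM
  have := hK N (by omega) x s (fun j => (hs j).1) (fun j => (hs j).2) M u
    (fun j => by
      have := (hu j).1
      intro a ha b hb hab
      rw [coe_Icc] at ha hb
      exact this ha hb hab) (fun j => (hu j).2) hM S (by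
    intro m hm
    obtain ⟨h1, h2, h3⟩ := hS m hm
    refine ⟨fun j => ⟨h1 j, ?_⟩, fun h4 => h3 (good_of hM0 ?_)⟩
    · have := mem_Icc.1 (h2 j)
      exact ⟨by omega, this.2⟩
    · intro H hH
      exact h4 H (fun j => ⟨(pow_le_pow_right₀ hℓ1 (by omega)).trans (hH j).1, (hH j).2⟩))
  exact_mod_cast this

/-- Let `k`, `B`, `C`, `U` and `ε > 0` be fixed.

* For all orders `p 1, ..., p k` there is a `K` such that for all `N ≥ K`, for all families
  `s j 1, ..., s j (x j)` (`j = 1, ..., k`) of integers in `[-B N, B N]` with an additive energy of order `p j` of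
  at most `log ^ C N` times the minimal possible size `x j ^ (2 p j) / N`, and for all sequences
  `u j 1, ..., u j M` (`j = 1, ..., k`) of `M ≥ N / log ^ C N` distinct integers in `[1, N]`: all tuples `m` for
  which the translations `t j = s j (m j)` are in `[1, N]`, with at most `x 1 ⋯ x k / log ^ U N` exceptions, give
  good translations `t`.
* In particular this holds for the translations `t j = c j + f j (m j)`, `m j ≤ x j`, where the `f j` are fixed
  nonconstant polynomials with integer coefficients, `N / log ^ C N ≤ x j ^ deg (f j) ≤ B N` and `|c j| ≤ B N`. -/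
theorem result (k B C U : ℕ) (ε : ℝ) (hε : 0 < ε) :
    (∀ p : Fin k → ℕ, ∃ K : ℕ, ∀ N : ℕ, K ≤ N →
      ∀ (x : Fin k → ℕ) (s : Fin k → ℕ → ℤ), (∀ j, NearlyMinimal (p j) B C N (x j) (s j)) →
      ∀ (M : ℕ) (u : Fin k → ℕ → ℕ), N / Real.log N ^ C ≤ M → (∀ j, Distinct N M (u j)) →
      num x (fun m => (∀ j, s j (m j) ∈ Icc (1 : ℤ) N) ∧ ¬ Good ε K N M u (fun j => (s j (m j)).toNat)) ≤
        (∏ j, x j) / Real.log N ^ U) ∧
    (∀ f : Fin k → Polynomial ℤ, (∀ j, 1 ≤ (f j).natDegree) → ∃ K : ℕ, ∀ N : ℕ, K ≤ N →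
      ∀ x : Fin k → ℕ, (∀ j, x j ^ (f j).natDegree ≤ B * N) →
      (∀ j, N / Real.log N ^ C ≤ x j ^ (f j).natDegree) → ∀ c : Fin k → ℤ, (∀ j, |c j| ≤ B * N) →
      ∀ (M : ℕ) (u : Fin k → ℕ → ℕ), N / Real.log N ^ C ≤ M → (∀ j, Distinct N M (u j)) →
      num x (fun m => (∀ j, c j + (f j).eval (m j : ℤ) ∈ Icc (1 : ℤ) N) ∧
        ¬ Good ε K N M u (fun j => (c j + (f j).eval (m j : ℤ)).toNat)) ≤
          (∏ j, x j) / Real.log N ^ U) := by
  classical
  refine ⟨general k B C U ε hε, fun f hd => ?_⟩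
  choose p B' hB' N1 h1 using fun j => Pool.Agent.TH823.Fam.poly_family (f j) (hd j) B C
  obtain ⟨K, h2⟩ := general k (∑ j, B' j) (C + 1) U ε hε p
  refine ⟨K + ∑ j, N1 j + 3, fun N hN x hx1 hx2 c hc M u hM hu => ?_⟩
  have hN3 : 3 ≤ N := by omega
  have hN0 : (0 : ℝ) < N := by exact_mod_cast (by omega : 0 < N)
  have hℓ1 : 1 ≤ Real.log (N : ℝ) := by
    rw [Real.le_log_iff_exp_le hN0]
    have h7 := Real.exp_one_lt_d9
    have : (3 : ℝ) ≤ N := by exact_mod_cast hN3
    linarith
  have h3 : ∀ j, NearlyMinimal (p j) (∑ j, B' j) (C + 1) N (x j) (fun m => c j + (f j).eval (m : ℤ)) := by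
    intro j
    have hj : N1 j ≤ ∑ j, N1 j := single_le_sum (fun _ _ => Nat.zero_le _) (mem_univ j)
    have hj2 : B' j ≤ ∑ j, B' j := single_le_sum (fun _ _ => Nat.zero_le _) (mem_univ j)
    have h4 := hx2 j
    rw [div_le_iff₀ (by positivity)] at h4
    obtain ⟨h5, h6⟩ := h1 j N (by omega) (x j) (hx1 j) (by linarith) (c j) (hc j)
    refine ⟨fun m hm => (h5 m hm).trans ?_, h6⟩
    exact_mod_cast Nat.mul_le_mul_right N hj2
  have hM2 : N / Real.log N ^ (C + 1) ≤ (M : ℝ) := by
    refine le_trans ?_ hM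
    apply div_le_div_of_nonneg_left (Nat.cast_nonneg _) (by positivity)
    exact pow_le_pow_right₀ hℓ1 (by omega)
  have h4 := h2 N (by omega) x (fun j m => c j + (f j).eval (m : ℤ)) h3 M u hM2 hu
  refine le_trans ?_ h4
  unfold num
  apply Nat.cast_le.2
  apply Set.ncard_le_ncard
  · rintro m ⟨g1, g2, g3⟩
    refine ⟨g1, g2, fun g4 => g3 ?_⟩
    intro H hH
    exact g4 H (fun j => ⟨(pow_le_pow_right₀ hℓ1 (by omega)).trans (hH j).1, (hH j).2⟩)
  · apply (Fintype.piFinset fun j => Icc 1 (x j)).finite_toSet.subset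
    intro m hm
    rw [mem_coe, Fintype.mem_piFinset]
    exact hm.1

end Pool.Agent.Results.MP_31d0eb_nt.GenericTranslates
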