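import Pool.Agent.Run7.h756.PS5
import Pool.Agent.TH823.Fam.Fam2

/-!
# Products of densities of primes at generic translates of sparse sequences, with power saving

Let `u 1, ..., u k` be arbitrary sequences of `M ≥ N ^ (1 - κ)` distinct integers in `[1, N]`.  For all
translations `t` with a power saving exceptional set, the product of the densities of the primes in the `k`
intervals `(u j i + t j, u j i + t j + H j]` has mean value `1 + O(δ)` over `i ≤ M`, simultaneously for all real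
lengths `N ^ ε ≤ H j ≤ N`.  The translations may be restricted to thin families.

The prime number theorem in all intervals `(x, x + y]`, `y ≥ x ^ (1 - κ)`, is proved in `Run7.h756.HA` from the
starting theorem `Pool.Agent.N490.OW.kt` (almost all intervals `(x, x + x ^ ε]`).  The Vinogradov bound, Selberg's
upper bound function over short intervals, the Brun-Titchmarsh theorem, the bilinear inequality for families of
nearly minimal additive energy and the moments of Weyl sums are from the starting files.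
-/

set_option autoImplicit false

namespace Pool.Agent.Results.MP_31d0eb_nt.PowerSavingTranslates

open Finset

/-- `π(n, H) log n / H`, where `π(n, H)` is the number of the primes in `(n, n + H]` -/
noncomputable def density (n : ℕ) (H : ℝ) : ℝ :=
  (((Ioc n ⌊(n : ℝ) + H⌋₊).filter Nat.Prime).card : ℝ) * Real.log n / H

/-- The additive energy of order `p` of the family `s 1, ..., s x`: the number of the solutions of
`s (v 1) + ... + s (v p) = s (w 1) + ... + s (w p)` with all `v i`, `w i` in `{1, ..., x}`. -/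
def energy (p x : ℕ) (s : ℕ → ℤ) : ℕ :=
  (((Fintype.piFinset fun _ : Fin p => Icc 1 x) ×ˢ (Fintype.piFinset fun _ : Fin p => Icc 1 x)).filter
    (fun q => ∑ i, s (q.1 i) = ∑ i, s (q.2 i))).card

/-- The members of the family `s 1, ..., s x` are at most `B N` in absolute value, and its additive energy of
order `p` is at most `N ^ κ` times the minimal possible size `x ^ (2 p) / N`. -/
def NearlyMinimal (p B : ℕ) (κ : ℝ) (N x : ℕ) (s : ℕ → ℤ) : Prop :=
  (∀ m ∈ Icc 1 x, |s m| ≤ B * N) ∧ (energy p x s : ℝ) * N ≤ (N : ℝ) ^ κ * (x : ℝ) ^ (2 * p)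

/-- `u` takes distinct values in `[1, N]` at `1, ..., M` -/
def Distinct (N M : ℕ) (u : ℕ → ℕ) : Prop :=
  Set.InjOn u (Set.Icc 1 M) ∧ ∀ i ∈ Icc 1 M, u i ∈ Icc 1 N

/-- The translations `t` are good for the sequences `u`: for all real lengths `H j` with `N ^ ε ≤ H j ≤ N` the
mean value over `i ≤ M` of the product over `j` of the densities of the primes in
`(u j i + t j, u j i + t j + H j]` differs from `1` by at most `δ`, and at least `(4 ^ (-k) - δ) M` of the
`i ≤ M` are such that all these `k` densities are at least `δ`. -/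
def Good {k : ℕ} (ε δ : ℝ) (N M : ℕ) (u : Fin k → ℕ → ℕ) (t : Fin k → ℕ) : Prop :=
  ∀ H : Fin k → ℝ, (∀ j, (N : ℝ) ^ ε ≤ H j ∧ H j ≤ N) →
    |(∑ i ∈ Icc 1 M, ∏ j, density (u j i + t j) (H j)) / M - 1| ≤ δ ∧
    ((1 / 4) ^ k - δ) * M ≤ (Set.ncard {i | i ∈ Icc 1 M ∧ ∀ j, δ ≤ density (u j i + t j) (H j)} : ℝ)

/-- the number of the tuples `m` with `1 ≤ m j ≤ x j` for all `j` and with the property `E` -/
noncomputable def num {k : ℕ} (x : Fin k → ℕ) (E : (Fin k → ℕ) → Prop) : ℝ :=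
  (Set.ncard {m | (∀ j, m j ∈ Icc 1 (x j)) ∧ E m} : ℝ)

lemma density_eq (n : ℕ) (H : ℝ) (hH : 0 ≤ H) : density n H = Run7.h756.GD.dens n H := by
  unfold density Run7.h756.GD.dens Pool.Agent.W301.SS.pn
  rw [add_comm (n : ℝ) H, Nat.floor_add_natCast hH, add_comm ⌊H⌋₊ n]

lemma num_le {k : ℕ} {x : Fin k → ℕ} {E : (Fin k → ℕ) → Prop} {V : ℝ}
    (h : ∀ S : Finset (Fin k → ℕ), (∀ m ∈ S, (∀ j, m j ∈ Icc 1 (x j)) ∧ E m) → (S.card : ℝ) ≤ V) :
    num x E ≤ V := by
  classical
  unfold num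
  have hfin : {m : Fin k → ℕ | (∀ j, m j ∈ Icc 1 (x j)) ∧ E m}.Finite := by
    apply (Fintype.piFinset fun j => Icc 1 (x j)).finite_toSet.subset
    intro m hm
    rw [mem_coe, Fintype.mem_piFinset]
    exact hm.1
  rw [Set.ncard_eq_toFinset_card _ hfin]
  apply h
  intro m hm
  rw [Set.Finite.mem_toFinset] at hm
  exact hm

lemma good_of {k : ℕ} {ε δ : ℝ} {N M : ℕ} {u : Fin k → ℕ → ℕ} {t : Fin k → ℕ} (hM : 0 < M)
    (h : Run7.h756.PS.GoodP k N M ε δ u t) : Good ε δ N M u t := by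
  intro H hH
  obtain ⟨h1, h2⟩ := h H hH
  have hM0 : (0 : ℝ) < M := by exact_mod_cast hM
  have hH0 : ∀ j, 0 ≤ H j := by
    intro j
    refine le_trans ?_ (hH j).1
    positivity
  have e : ∀ i j, density (u j i + t j) (H j) = Run7.h756.GD.dens (u j i + t j) (H j) :=
    fun i j => density_eq _ _ (hH0 j)
  simp only [e]
  refine ⟨?_, h2⟩
  rw [abs_le] at h1 ⊢
  constructor
  · rw [le_sub_iff_add_le, le_div_iff₀ hM0]
    linarith
  · rw [sub_le_iff_le_add, div_le_iff₀ hM0]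
    linarith

lemma general (k B : ℕ) (ε δ : ℝ) (hε : 0 < ε) (hδ : 0 < δ) (p : Fin k → ℕ) : ∃ κ : ℝ, 0 < κ ∧ ∃ N0 : ℕ,
      ∀ N : ℕ, N0 ≤ N → ∀ (x : Fin k → ℕ) (s : Fin k → ℕ → ℤ), (∀ j, NearlyMinimal (p j) B κ N (x j) (s j)) →
      ∀ (M : ℕ) (u : Fin k → ℕ → ℕ), (N : ℝ) ^ (1 - κ) ≤ M → (∀ j, Distinct N M (u j)) →
      num x (fun m => (∀ j, s j (m j) ∈ Icc (1 : ℤ) N) ∧ ¬ Good ε δ N M u (fun j => (s j (m j)).toNat)) ≤
        (∏ j, x j) / (N : ℝ) ^ κ := by
  obtain ⟨κ, hκ, hev⟩ := Run7.h756.PS.main B k p ε δ hε hδ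
  obtain ⟨N0, h0⟩ := Filter.eventually_atTop.1 hev
  refine ⟨κ, hκ, N0 + 1, fun N hN x s hs M u hM hu => num_le fun S hS => ?_⟩
  have hN0 : (0 : ℝ) < N := by exact_mod_cast (by omega : 0 < N)
  have hM0 : 0 < M := by
    have : (0 : ℝ) < M := lt_of_lt_of_le (by positivity) hM
    exact_mod_cast this
  have := h0 N (by omega) x s (fun j => (hs j).1) (fun j => (hs j).2) M u hM
    (fun j => by
      have := (hu j).1
      intro a ha b hb hab
      rw [coe_Icc] at ha hb
      exact this ha hb hab) (fun j => (hu j).2) S (by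
    intro m hm
    obtain ⟨h1, h2, h3⟩ := hS m hm
    refine ⟨fun j => ⟨h1 j, ?_⟩, fun h4 => h3 (good_of hM0 h4)⟩
    have := mem_Icc.1 (h2 j)
    exact ⟨by omega, this.2⟩)
  exact_mod_cast this

/-- Let `k`, `B`, `ε > 0` and `δ > 0` be fixed.

* For all orders `p 1, ..., p k` there is a `κ > 0` such that for all large `N`, for all families
  `s j 1, ..., s j (x j)` (`j = 1, ..., k`) of integers in `[-B N, B N]` with an additive energy of order `p j` of
  at most `N ^ κ` times the minimal possible size `x j ^ (2 p j) / N`, and for all sequences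
  `u j 1, ..., u j M` (`j = 1, ..., k`) of `M ≥ N ^ (1 - κ)` distinct integers in `[1, N]`: all tuples `m` for
  which the translations `t j = s j (m j)` are in `[1, N]`, with at most `x 1 ⋯ x k / N ^ κ` exceptions, give
  good translations `t`.
* In particular this holds for the translations `t j = c j + f j (m j)`, `m j ≤ x j`, where the `f j` are fixed
  nonconstant polynomials with integer coefficients, `N ^ (1 - κ) ≤ x j ^ deg (f j) ≤ B N` and `|c j| ≤ B N`. -/
theorem result (k B : ℕ) (ε δ : ℝ) (hε : 0 < ε) (hδ : 0 < δ) :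
    (∀ p : Fin k → ℕ, ∃ κ : ℝ, 0 < κ ∧ ∃ N0 : ℕ,
      ∀ N : ℕ, N0 ≤ N → ∀ (x : Fin k → ℕ) (s : Fin k → ℕ → ℤ), (∀ j, NearlyMinimal (p j) B κ N (x j) (s j)) →
      ∀ (M : ℕ) (u : Fin k → ℕ → ℕ), (N : ℝ) ^ (1 - κ) ≤ M → (∀ j, Distinct N M (u j)) →
      num x (fun m => (∀ j, s j (m j) ∈ Icc (1 : ℤ) N) ∧ ¬ Good ε δ N M u (fun j => (s j (m j)).toNat)) ≤
        (∏ j, x j) / (N : ℝ) ^ κ) ∧
    (∀ f : Fin k → Polynomial ℤ, (∀ j, 1 ≤ (f j).natDegree) → ∃ κ : ℝ, 0 < κ ∧ ∃ N0 : ℕ, ∀ N : ℕ, N0 ≤ N →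
      ∀ x : Fin k → ℕ, (∀ j, x j ^ (f j).natDegree ≤ B * N) →
      (∀ j, (N : ℝ) ^ (1 - κ) ≤ x j ^ (f j).natDegree) → ∀ c : Fin k → ℤ, (∀ j, |c j| ≤ B * N) →
      ∀ (M : ℕ) (u : Fin k → ℕ → ℕ), (N : ℝ) ^ (1 - κ) ≤ M → (∀ j, Distinct N M (u j)) →
      num x (fun m => (∀ j, c j + (f j).eval (m j : ℤ) ∈ Icc (1 : ℤ) N) ∧
        ¬ Good ε δ N M u (fun j => (c j + (f j).eval (m j : ℤ)).toNat)) ≤ (∏ j, x j) / (N : ℝ) ^ κ) := by
  classical
  refine ⟨general k B ε δ hε hδ, fun f hd => ?_⟩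
  choose p C1 hC1 h1 using fun j => Pool.Agent.TH823.Fam.energy_poly' (f j) (hd j)
  choose A hA using fun j => Pool.Agent.TH823.Fam.poly_size (f j)
  obtain ⟨κ, hκ, N1, h2⟩ := general k (B + (∑ j, A j) * B) ε δ hε hδ p
  obtain ⟨N2, h3⟩ := Filter.eventually_atTop.1
    (Pool.Agent.W301.SS.ev_log 0 (∑ j, C1 j) (κ / 2) (by positivity))
  refine ⟨κ / 2, by positivity, N1 + N2 + 1, fun N hN x hx1 hx2 c hc M u hM hu => ?_⟩
  have hN0 : (0 : ℝ) < N := by exact_mod_cast (by omega : 0 < N)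
  have hNr : (1 : ℝ) ≤ N := by exact_mod_cast (by omega : 1 ≤ N)
  have h4 := h3 N (by omega)
  rw [pow_zero, mul_one] at h4
  have h5 : ∀ j, NearlyMinimal (p j) (B + (∑ j, A j) * B) κ N (x j) (fun m => c j + (f j).eval (m : ℤ)) := by
    intro j
    have hxj : 1 ≤ x j := by
      by_contra hcon
      have h0 : x j = 0 := by omega
      have h6 := hx2 j
      have h7 := hd j
      rw [h0, Nat.cast_zero, zero_pow (by omega)] at h6
      have : 0 < (N : ℝ) ^ (1 - κ / 2) := by positivity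
      linarith
    constructor
    · intro m hm
      refine (abs_add_le _ _).trans ?_
      have h6 := hA j (x j) hxj m hm
      have h7 : (x j : ℤ) ^ (f j).natDegree ≤ B * N := by exact_mod_cast hx1 j
      have h8 : (A j : ℤ) ≤ ((∑ j, A j : ℕ) : ℤ) := by
        exact_mod_cast single_le_sum (f := A) (fun _ _ => Nat.zero_le _) (mem_univ j)
      have h9 : (A j : ℤ) * (x j : ℤ) ^ (f j).natDegree ≤ ((∑ j, A j : ℕ) : ℤ) * (B * N) :=
        mul_le_mul h8 h7 (by positivity) (by positivity)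
      have h10 := hc j
      have e : (((B + (∑ j, A j) * B : ℕ) : ℤ)) * N = B * N + ((∑ j, A j : ℕ) : ℤ) * (B * N) := by
        push_cast
        ring
      rw [e]
      linarith
    · have h6 := h1 j (x j) hxj (c j)
      have hxd : (0 : ℝ) < (x j : ℝ) ^ (f j).natDegree := by positivity
      have h7 : C1 j ≤ (N : ℝ) ^ (κ / 2) := by
        refine le_trans ?_ h4
        exact single_le_sum (f := C1) (fun i _ => (hC1 i).le) (mem_univ j)
      have h8 : (N : ℝ) ≤ (N : ℝ) ^ (κ / 2) * (x j : ℝ) ^ (f j).natDegree := by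
        calc (N : ℝ) = (N : ℝ) ^ (κ / 2) * (N : ℝ) ^ (1 - κ / 2) := by
              rw [← Real.rpow_add hN0]
              norm_num
          _ ≤ _ := mul_le_mul_of_nonneg_left (hx2 j) (by positivity)
      have h9 : (N : ℝ) ^ κ = (N : ℝ) ^ (κ / 2) * (N : ℝ) ^ (κ / 2) := by
        rw [← Real.rpow_add hN0]
        congr 1
        ring
      have h10 : (0 : ℝ) ≤ (energy (p j) (x j) (fun m => c j + (f j).eval (m : ℤ)) : ℝ) := Nat.cast_nonneg _
      calc (energy (p j) (x j) (fun m => c j + (f j).eval (m : ℤ)) : ℝ) * N ≤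
            (energy (p j) (x j) (fun m => c j + (f j).eval (m : ℤ)) : ℝ) *
              ((N : ℝ) ^ (κ / 2) * (x j : ℝ) ^ (f j).natDegree) := mul_le_mul_of_nonneg_left h8 h10
        _ = (N : ℝ) ^ (κ / 2) * ((energy (p j) (x j) (fun m => c j + (f j).eval (m : ℤ)) : ℝ) *
              (x j : ℝ) ^ (f j).natDegree) := by ring
        _ ≤ (N : ℝ) ^ (κ / 2) * (C1 j * (x j : ℝ) ^ (2 * p j)) :=
            mul_le_mul_of_nonneg_left h6 (by positivity)
        _ ≤ (N : ℝ) ^ (κ / 2) * ((N : ℝ) ^ (κ / 2) * (x j : ℝ) ^ (2 * p j)) := by gcongr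
        _ = _ := by rw [h9]; ring
  have hMa : (N : ℝ) ^ (1 - κ) ≤ M := by
    refine le_trans ?_ hM
    exact Real.rpow_le_rpow_of_exponent_le hNr (by linarith)
  refine (h2 N (by omega) x (fun j m => c j + (f j).eval (m : ℤ)) h5 M u hMa hu).trans ?_
  apply div_le_div_of_nonneg_left (Nat.cast_nonneg _) (by positivity)
  exact Real.rpow_le_rpow_of_exponent_le hNr (by linarith)

end Pool.Agent.Results.MP_31d0eb_nt.PowerSavingTranslates
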