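import Pool.Agent.Run7.h794.MK.Seq
import Pool.Agent.N384.MQ.Ex
import Pool.Agent.N384.MQ.Quot

/-!
# The prime number theorem in short windows along random sequences of shifts

The interval `(n, n + h]` is replaced by the first `m` members of a window `n + y_(i_1), n + y_(i_2), …`, where `i_1, i_2, …` is a random
sequence of members of ANY flat family inside an interval of length `q`, `N ^ (1 / 3) log ^ C N ≤ q ≤ N / log ^ W N` (the family may have
only a power of `log N` members). For almost all sequences and for all but `N / log ^ A N` of the integers `n ≤ N`, the number of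
primes is asymptotically the expected one for ALL lengths `m ≥ K log N log log N` at once, for all windows
`j n + c + κ y_(i_l)`, `1 ≤ j ≤ log ^ T N`, `0 < |κ| ≤ log ^ T N`, `|c| ≤ log ^ T N`, at the same time; and for every single length `m`
for which `m / log N → ∞`, arbitrarily slowly, it is so for almost all `n` (for almost all sequences).

From Mathlib: `ZMod.stdAddChar`: the additive character `j ↦ exp (2 π i j / q)` of the integers modulo `q`; `ZMod.val`: the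
least residue; `Fintype.piFinset (fun _ : Fin M => s)`: the sequences of `M` members of `s`.

Main ingredients: sparse windows in mean square (projects CR and MK), Chernoff's inequality over the sequences for fixed `n`.
-/

set_option autoImplicit false

namespace Pool.Agent.Results.MP_31d0eb_nt.RandomSequences

open Finset

/-- The Fourier coefficients of the residues `y i`, `i ∈ s`, modulo `q` at the nonzero frequencies are at most
`η` times the number of the residues: `|∑ i ∈ s, e(h y_i / q)| ≤ η |s|` for all `h ≠ 0` modulo `q`. -/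
def Flat {ι : Type} (q : ℕ) [NeZero q] (η : ℝ) (s : Finset ι) (y : ι → ZMod q) : Prop :=
  ∀ h : ZMod q, h ≠ 0 → ‖∑ i ∈ s, (ZMod.stdAddChar (h * y i) : ℂ)‖ ≤ η * s.card

/-- The number of the `l < m` for which the integer `b + κ y_(i_l)` is a (positive) prime, with the least residues
`0 ≤ y < q`. -/
def hits {ι : Type} {q M : ℕ} (y : ι → ZMod q) (i : Fin M → ι) (m : ℕ) (κ b : ℤ) : ℕ :=
  ((univ : Finset (Fin M)).filter (fun l : Fin M => (l : ℕ) < m ∧ (b + κ * ((y (i l)).val : ℕ)).toNat.Prime)).card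

/-- `|κ| / φ(|κ|)` -/
noncomputable def dens (κ : ℤ) : ℝ := κ.natAbs / (Nat.totient κ.natAbs : ℝ)

/-- **(1)** All lengths `m ≥ K log N log log N` and all `j`, `κ`, `c` at once.

**(2)** One length `m`: the proportions of the exceptional sequences and of the exceptional `n` are exponentially small in
`m / log N` (up to `1 / log ^ A N`).

**(3)**, **(4)** Examples of flat families modulo large primes `p`: the quotients `j / r` of the integers `0 ≤ j < S` by the primes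
`r ≤ R`, if `log ^ (V + 4) p ≤ R < p` and `R ^ 2 ≤ S`; the cosets of all subgroups of the multiplicative group of an order of at
least `p ^ (3/8) log ^ (3 V + 1) p`; the residues `a b + g(a) + k(b)`, `a ∈ A`, `b ∈ B`, for arbitrary sets with
`|A| |B| ≥ p log ^ (2 V) p` and arbitrary functions `g` and `k`; the values `f(n)`, `0 ≤ n < x`, of all integer polynomials of degree
`d` whose leading coefficient is not divisible by `p`, if `x ^ d ≥ p log ^ C p`. -/
theorem result :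
    (∀ (T A : ℕ) (ε : ℝ), 0 < ε → ε ≤ 1 → ∃ V C W N₀ : ℕ, ∃ K : ℝ, 0 < K ∧ ∀ N : ℕ, N₀ ≤ N →
      ∀ (q : ℕ) [NeZero q], (N : ℝ) ^ (1 / 3 : ℝ) * Real.log N ^ C ≤ q → (q : ℝ) * Real.log N ^ W ≤ N →
      ∀ {ι : Type} [DecidableEq ι] (s : Finset ι) (y : ι → ZMod q), s.Nonempty → Flat q (1 / Real.log q ^ V) s y →
      ∀ M : ℕ, ∃ Bad ⊆ Fintype.piFinset (fun _ : Fin M => s), (Bad.card : ℝ) ≤ (s.card : ℝ) ^ M / Real.log N ^ A ∧
        ∀ i ∈ Fintype.piFinset (fun _ : Fin M => s), i ∉ Bad →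
        ∃ E ⊆ Icc 1 N, (E.card : ℝ) ≤ N / Real.log N ^ A ∧ ∀ n ∈ Icc 1 N, n ∉ E →
        ∀ (j : ℕ) (κ c : ℤ), 1 ≤ j → (j : ℝ) ≤ Real.log N ^ T → κ ≠ 0 → |(κ : ℝ)| ≤ Real.log N ^ T →
          |(c : ℝ)| ≤ Real.log N ^ T → IsCoprime ((j * n + c : ℤ)) κ →
        ∀ m : ℕ, K * (Real.log N * Real.log (Real.log N)) ≤ m → m ≤ M →
        |(hits y i m κ (j * n + c : ℤ) : ℝ) - dens κ * (m / Real.log N)| ≤ ε * (dens κ * (m / Real.log N))) ∧
    (∀ (T A : ℕ) (ε : ℝ), 0 < ε → ε ≤ 1 → ∃ V C W N₀ : ℕ, ∀ N : ℕ, N₀ ≤ N →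
      ∀ (q : ℕ) [NeZero q], (N : ℝ) ^ (1 / 3 : ℝ) * Real.log N ^ C ≤ q → (q : ℝ) * Real.log N ^ W ≤ N →
      ∀ {ι : Type} [DecidableEq ι] (s : Finset ι) (y : ι → ZMod q), s.Nonempty → Flat q (1 / Real.log q ^ V) s y →
      ∀ (j : ℕ) (κ c : ℤ), 1 ≤ j → (j : ℝ) ≤ Real.log N ^ T → κ ≠ 0 → |(κ : ℝ)| ≤ Real.log N ^ T →
          |(c : ℝ)| ≤ Real.log N ^ T →
      ∀ m : ℕ, ∃ Bad ⊆ Fintype.piFinset (fun _ : Fin m => s),
        (Bad.card : ℝ) ≤ (s.card : ℝ) ^ m * Real.exp (-(ε ^ 2 / 64 * (m / Real.log N))) ∧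
        ∀ i ∈ Fintype.piFinset (fun _ : Fin m => s), i ∉ Bad →
        ∃ E ⊆ Icc 1 N, (E.card : ℝ) ≤ N * (2 * Real.exp (-(ε ^ 2 / 64 * (m / Real.log N))) + 1 / Real.log N ^ A) ∧
          ∀ n ∈ Icc 1 N, n ∉ E → IsCoprime ((j * n + c : ℤ)) κ →
        |(hits y i m κ (j * n + c : ℤ) : ℝ) - dens κ * (m / Real.log N)| ≤ ε * (dens κ * (m / Real.log N))) ∧
    (∀ V : ℕ, ∃ P₀ : ℕ, ∀ p : ℕ, P₀ ≤ p → ∀ [Fact p.Prime],
      (∀ R S : ℕ, Real.log p ^ (V + 4) ≤ R → R < p → R ^ 2 ≤ S →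
        Flat p (1 / Real.log p ^ V) (((Icc 1 R).filter Nat.Prime) ×ˢ range S)
          (fun z => ((z.2 : ℕ) : ZMod p) * ((z.1 : ℕ) : ZMod p)⁻¹)) ∧
      (∀ (H : Subgroup (ZMod p)ˣ) (s : Finset (ZMod p)ˣ), (∀ u, u ∈ s ↔ u ∈ H) →
        (p : ℝ) ^ (3 / 8 : ℝ) * Real.log p ^ (3 * V + 1) ≤ s.card → ∀ x : ZMod p, x ≠ 0 →
        Flat p (1 / Real.log p ^ V) s (fun u => x * (u : ZMod p))) ∧
      (∀ (A B : Finset (ZMod p)) (g k : ZMod p → ZMod p), (p : ℝ) * Real.log p ^ (2 * V) ≤ A.card * B.card →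
        Flat p (1 / Real.log p ^ V) (A ×ˢ B) (fun z => z.1 * z.2 + g z.1 + k z.2))) ∧
    (∀ d V : ℕ, 1 ≤ d → ∃ C P₀ : ℕ, ∀ p : ℕ, P₀ ≤ p → ∀ [Fact p.Prime] (f : Polynomial ℤ), f.natDegree = d →
      ¬ (p : ℤ) ∣ f.leadingCoeff → ∀ x : ℕ, (p : ℝ) * Real.log p ^ C ≤ (x : ℝ) ^ d →
      Flat p (1 / Real.log p ^ V) (range x) (fun n => ((f.eval (n : ℤ) : ℤ) : ZMod p))) := by
  refine ⟨fun T A ε hε hε1 => ?_, fun T A ε hε hε1 => ?_, fun V => ?_, fun d V hd => ?_⟩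
  · obtain ⟨V, C, W, N₀, K, hK, h⟩ := Pool.Agent.Run7.h794.MK.prime_seq Pool.Agent.Run7.h931.MK.t31 T A ε hε hε1
    obtain ⟨N₁, h1⟩ := Pool.Agent.Run7.h794.MK.flat_log V
    exact ⟨V + 1, C, W, N₀ + N₁, K, hK, fun N hN q _ hq1 hq2 ι _ s y hs hf M =>
      h N (by omega) q hq1 hq2 s y hs (h1 N (by omega) q C hq1 s y hf) M⟩
  · obtain ⟨V, C, W, N₀, h⟩ := Pool.Agent.Run7.h794.MK.prime_one Pool.Agent.Run7.h931.MK.t31 T A ε hε hε1
    obtain ⟨N₁, h1⟩ := Pool.Agent.Run7.h794.MK.flat_log V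
    exact ⟨V + 1, C, W, N₀ + N₁, fun N hN q _ hq1 hq2 ι _ s y hs hf =>
      h N (by omega) q hq1 hq2 s y hs (h1 N (by omega) q C hq1 s y hf)⟩
  · obtain ⟨P₁, h1⟩ := Pool.Agent.N384.MQ.flat_quot V
    obtain ⟨P₂, h2⟩ := Pool.Agent.N384.MQ.flat_coset V
    obtain ⟨P₃, h3⟩ := Pool.Agent.N384.MQ.flat_prod V
    exact ⟨P₁ + P₂ + P₃, fun p hp _ => ⟨fun R S => h1 p (by omega) R S, fun H s => h2 p (by omega) H s,
      fun A B g k => h3 p (by omega) A B g k⟩⟩
  · exact Pool.Agent.N384.MQ.flat_poly d V hd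

end Pool.Agent.Results.MP_31d0eb_nt.RandomSequences
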