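import Pool.Agent.Run7.h52.M7
import Pool.Agent.Run7.h52.M8

set_option autoImplicit false

namespace Pool.Agent.Results.MP_31d0eb_nt.SquareWeightsShortIntervals

open Run7.h52.SW

/-- the number of `m` in `(n + x, n + x + Y]` without prime factors `≤ z` -/
noncomputable def rough (z Y : ℕ) (x n : ℤ) : ℕ :=
  (survivors ((Finset.Icc 1 z).filter Nat.Prime) (Finset.Ioc x (x + Y)) n).card

/-- `1 / (4 (32 m) ^ m m!)`, `m = ⌊A⌋ + 3` -/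
noncomputable def dev (A : ℝ) : ℝ :=
  1 / (4 * (32 * ((⌊A⌋₊ : ℝ) + 3)) ^ (⌊A⌋₊ + 3) * (Nat.factorial (⌊A⌋₊ + 3) : ℕ))

theorem result :
    (∀ δ : ℝ, 0 < δ → ∃ C : ℝ, 0 < C ∧ ∃ X₀ : ℝ, ∀ X : ℝ, X₀ ≤ X → ∀ Y : ℕ,
      (Real.log X) ^ (1 + δ) ≤ Y → ∀ z : ℕ, 2 ≤ z → ∀ M : ℕ, 0 < M →
      (∀ p ∈ (Finset.Icc 1 z).filter Nat.Prime, p ∣ M) →
      ∀ w : ℤ → ℝ, SquareWeight X M w → ∀ x : ℤ,
      ∑ n ∈ Finset.range M, w n * (rough z Y x n : ℝ)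
        ≤ C * (Y / Real.log z) * ∑ n ∈ Finset.range M, w n) ∧
    (∀ A κ : ℝ, 2 < A → 0 < κ → ∃ X₀ : ℝ, ∀ X : ℝ, X₀ ≤ X → ∀ Y : ℕ,
      (Real.log X) ^ A ≤ Y → ∀ z M : ℕ, 0 < M →
      (∀ p ∈ (Finset.Icc 1 z).filter Nat.Prime, p ∣ M) →
      ∀ w : ℤ → ℝ, SquareWeight X M w → ∀ x : ℤ,
      |∑ n ∈ Finset.range M, w n * (rough z Y x n : ℝ) - W z * Y * ∑ n ∈ Finset.range M, w n|
        ≤ (2 * Real.exp Real.eulerMascheroniConstant / Real.Gamma (A + 1) + κ) * (W z * Y) *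
          ∑ n ∈ Finset.range M, w n ∧
      (A ≤ 4 → (2 * Real.exp Real.eulerMascheroniConstant * Real.log (A - 1) / A - κ) * (W z * Y) *
        ∑ n ∈ Finset.range M, w n ≤ ∑ n ∈ Finset.range M, w n * (rough z Y x n : ℝ)) ∧
      (A ≤ 3 → ∑ n ∈ Finset.range M, w n * (rough z Y x n : ℝ)
        ≤ (2 * Real.exp Real.eulerMascheroniConstant / A + κ) * (W z * Y) * ∑ n ∈ Finset.range M, w n)) ∧
    (∀ κ : ℝ, 0 < κ → ∃ A : ℝ, 0 < A ∧ ∃ X₀ : ℝ, ∀ X : ℝ, X₀ ≤ X → ∀ Y : ℕ,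
      (Real.log X) ^ A ≤ Y → ∀ z M : ℕ, 0 < M →
      (∀ p ∈ (Finset.Icc 1 z).filter Nat.Prime, p ∣ M) →
      ∀ w : ℤ → ℝ, SquareWeight X M w → ∀ x : ℤ,
      |∑ n ∈ Finset.range M, w n * (rough z Y x n : ℝ) - W z * Y * ∑ n ∈ Finset.range M, w n|
        ≤ κ * (W z * Y) * ∑ n ∈ Finset.range M, w n) ∧
    (∀ A : ℝ, 0 < A → ∃ h : ℝ, 0 < h ∧ ∃ X₀ : ℝ, ∀ X : ℝ, X₀ ≤ X → ∀ Y : ℕ,
      (Real.log X) ^ A ≤ Y → (Y : ℝ) ≤ (Real.log X) ^ (A + h) → ∀ z M : ℕ, Real.log X ≤ z → 0 < M →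
      (∀ p ∈ (Finset.Icc 1 z).filter Nat.Prime, p ∣ M) → ∀ x : ℤ,
      (∃ w : ℤ → ℝ, SquareWeight X M w ∧ 0 < ∑ n ∈ Finset.range M, w n ∧
        (1 + 2 * dev A) * (W z * Y) * ∑ n ∈ Finset.range M, w n
          ≤ ∑ n ∈ Finset.range M, w n * (rough z Y x n : ℝ)) ∧
      (∃ w : ℤ → ℝ, SquareWeight X M w ∧ 0 < ∑ n ∈ Finset.range M, w n ∧
        ∑ n ∈ Finset.range M, w n * (rough z Y x n : ℝ)
          ≤ (1 - 2 * dev A) * (W z * Y) * ∑ n ∈ Finset.range M, w n)) :=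
  ⟨Run7.h52.Asym.upper, fun _ _ hA hκ => Run7.h52.M7.meanM hA hκ, Run7.h52.M7.meanN,
    fun _ hA => Run7.h52.M8.exM hA⟩

end Pool.Agent.Results.MP_31d0eb_nt.SquareWeightsShortIntervals
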